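import Pool.Agent.U405.RS.F
import Pool.Agent.U405.RS.F2
import Pool.Agent.N481.MV.Two
import Pool.Agent.N905.EX.Law

/-!
# Maximum excursions in the `3x+1` problem for all integers near values of `f` at thin sets of arguments

Let `f` be a positive multiplicative function of at most polynomial growth which for each `a ≥ 1` is injective at the powers
`p ^ a` of the large primes and at most `M p ^ a` there; for example Euler's function or the sum of the divisors. There is `B` such that for all `0 < u ≤ 1`, `δ > 0`, `κ ≥ 0`, `α > 0`, `d ≥ 1` and `e = d (1 - min u (0.06 δ)) + κ` EVERY integer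
`n ≥ 1` with `|n - α f(v)^d| ≤ f(v)^κ` reaches a value `≤ n^δ` within `B log n` steps and stays `≤ n^(1+u)` until then, for almost
all `v` (with a saving of any power of the logarithm) in each of these sets:

* the values of any integer polynomial without repeated roots, of degree `< 1 / e`;
* the shifted primes `p + a`, `a` any integer, if `e < 1`;
* the intervals `(x, x + y]`, `x^τ ≤ y ≤ x`, for every `τ > e`, `τ ≤ 1`.

If `n` has this property then its maximum excursion is at most `n^(1+u)` or that of a number `≤ n^δ`. For instance this holds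
for all integers near `φ(p - 1)`, or near `σ(p + 1)`, for almost all primes `p`.

Proof. Own tool `Pool.Agent.U405.RS`: let `S` be a set of at least `N^(θ + δ)` integers up to `N` with at most
`B g^ω(k) |S| / k` multiples of `k` for every `k ≤ N^δ`, and let `W` have at most `C X^θ` elements up to `X`. Then `f(m) ∈ W` for at
most `|S| / (log N)^U` of the `m` in `S`. For this write `m = k w` with `k` composed of the primes `≤ z = N^(1 / J)`, `J` a small
multiple of `log log N`. By Rankin's method with the weights `g^ω(k)` one has `k ≤ N^η` for most `m`; and `w` has at most `J`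
prime factors and exponents `≤ J`, so that `w` is determined by `f(w)` up to `(J τ(f(w)) + 1)^J = N^o(1)` possibilities. The three
kinds of sets satisfy the hypothesis: for polynomials because `P` has at most `g` zeros modulo every prime power (lifting of
zeros by the identity `U P + V P' = R`), for shifted primes by the Brun-Titchmarsh inequality (library). The exceptional
integers are counted by a law of the starting library (`Pool.Agent.N905.EX.Law`).
-/

set_option autoImplicit false

namespace Pool.Agent.Results.MP_0a5adf_nt.SparseArguments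

open Finset
open Pool.Agent.N733.TG (Expanding expanding_pow)
open Pool.Agent.U405.RS (PM Sparse sparse_good sparse_set' examples)
open Pool.Agent.TH930.LT Pool.Agent.N905.EX

/-- the accelerated `3x+1` map -/
def T (n : ℕ) : ℕ := if n % 2 = 0 then n / 2 else (3 * n + 1) / 2

/-- within `B log n` steps the trajectory of `n` reaches a value `≤ y`, and it stays `≤ V` until then -/
def DescendsBelow (B y V : ℝ) (n : ℕ) : Prop :=
  ∃ m : ℕ, (m : ℝ) ≤ B * Real.log n ∧ ((T^[m] n : ℕ) : ℝ) ≤ y ∧ ∀ j ≤ m, ((T^[j] n : ℕ) : ℝ) ≤ V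

/-- the maximum excursion of `n` is at most `V` -/
def ExcursionLE (n : ℕ) (V : ℝ) : Prop := ∀ k, ((T^[k] n : ℕ) : ℝ) ≤ V

lemma T_eq : T = Pool.Agent.Helper894.Collatz.T := rfl

lemma exc_iff {B y V : ℝ} {n : ℕ} : ¬ DescendsBelow B y V n ↔ excBad B y V n := by
  unfold DescendsBelow excBad
  rw [T_eq, not_iff_not]
  apply exists_congr
  intro m
  tauto

lemma law : ∃ B C : ℝ, 0 < B ∧ 0 < C ∧ ∀ x y V : ℝ, 2 ≤ x → 1 ≤ y → x ≤ V →
    ({n : ℕ | 1 ≤ n ∧ (n : ℝ) ≤ x ∧ ¬ DescendsBelow B y V n}.ncard : ℝ) ≤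
      C * Real.log x ^ 4 * (x ^ 2 / V + x / y ^ (6 / 100 : ℝ)) := by
  obtain ⟨a, C₁, ha0, -, hC₁, hQ⟩ := card_Ps
  obtain ⟨C₂, hC₂, hW⟩ := card_Wx
  have e94 : (1 : ℝ) - 6 / 100 = 94 / 100 := by norm_num
  obtain ⟨C, hC, h⟩ := exc_law (c := 6 / 100) (B := 2 / a) ha0 hC₁ hC₂
    (fun i => by rw [e94]; exact hQ i) (fun V hV i => by rw [e94]; exact hW V hV i)
    (by positivity) (by rw [div_mul_cancel₀ _ ha0.ne']; norm_num) (by norm_num) (by norm_num)
  refine ⟨2 / a, C, by positivity, hC, fun x y V hx hy hV => ?_⟩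
  rw [add_comm (x ^ 2 / V)]
  refine le_trans (le_of_eq ?_) (h x y V hx hy hV)
  congr 2
  ext n
  simp only [Set.mem_ofPred_eq]
  constructor
  · rintro ⟨h1, h2, h3⟩
    exact ⟨h1, h2, exc_iff.1 h3⟩
  · rintro ⟨h1, h2, h3⟩
    exact ⟨h1, h2, exc_iff.2 h3⟩

lemma mono {B y y' V V' : ℝ} {n : ℕ} (hy : y ≤ y') (hV : V ≤ V') (h : DescendsBelow B y V n) :
    DescendsBelow B y' V' n := by
  obtain ⟨m, h1, h2, h3⟩ := h
  exact ⟨m, h1, h2.trans hy, fun j hj => (h3 j hj).trans hV⟩

/-- every integer `n ≥ 1` with `|n - G w| ≤ w ^ κ` reaches a value `≤ n^δ` within `B log n` steps and stays `≤ n^(1+u)` until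
then -/
def Clear (B u δ : ℝ) (G : ℕ → ℝ) (κ : ℝ) (w : ℕ) : Prop :=
  ∀ n : ℕ, 1 ≤ n → |(n : ℝ) - G w| ≤ (w : ℝ) ^ κ → DescendsBelow B ((n : ℝ) ^ δ) ((n : ℝ) ^ (1 + u)) n

/-- **Excursions near `G (f v)` for the `v` in thin sets.** There is `B` such that for all `f` in the class `PM`, all `G` with
steps `≥ const > 0` and growth at most `v^d`, all `0 < u ≤ 1`, `δ > 0`, `κ ≥ 0` and all `U` the property that EVERY integer
`n ≥ 1` with `|n - G w| ≤ w^κ` reaches a value `≤ n^δ` within `B log n` steps and stays `≤ n^(1+u)` until then holds in the sense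
`Sparse e f`, `e = d (1 - min u (0.06 δ)) + κ`. If `n` has this property then for some `w ≤ n^δ` in its trajectory and all
`V ≥ n^(1+u)` the maximum excursion of `n` is `≤ V` if and only if the one of `w` is. (`Sparse e f`: with a saving of `(log x)^U` it holds at `f v` for almost all `v` among the positive values of every integer
polynomial without repeated roots of degree `< 1 / e`; among the shifted primes `p + a` for every `a`, if `e < 1`; and in all
intervals `(x, x + y]`, `x^τ ≤ y ≤ x`, `e < τ ≤ 1`.) Euler's function and the sum of the divisors are in the class `PM`, and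
`α v^d` with `α > 0`, `d ≥ 1` is an example of `G`. -/
theorem result :
    (∃ B : ℝ, 0 < B ∧
      ∀ f : ℕ → ℕ, PM f → ∀ (G : ℕ → ℝ) (d : ℝ), Expanding G d → ∀ u δ κ : ℝ, 0 < u → u ≤ 1 → 0 < δ → 0 ≤ κ → ∀ U : ℕ,
        Sparse (d * (1 - min u (6 / 100 * δ)) + κ) f (Clear B u δ G κ) U) ∧
    (∀ (B v δ : ℝ) (n : ℕ), DescendsBelow B ((n : ℝ) ^ δ) ((n : ℝ) ^ (1 + v)) n →
      ∃ u k : ℕ, T^[k] n = u ∧ (u : ℝ) ≤ (n : ℝ) ^ δ ∧
        ∀ V : ℝ, (n : ℝ) ^ (1 + v) ≤ V → (ExcursionLE n V ↔ ExcursionLE u V)) ∧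
    (PM Nat.totient ∧ PM (fun m => ∑ d ∈ m.divisors, d) ∧ PM (fun m => m)) ∧
    ∀ α d : ℝ, 0 < α → 1 ≤ d → Expanding (fun v => α * (v : ℝ) ^ d) d := by
  obtain ⟨B, C, hB, hC, law⟩ := law
  refine ⟨⟨B, hB, fun f hf G d hG v δ κ hv hv1 hδ hκ U => ?_⟩, ?_, examples, fun α d hα hd => expanding_pow hα hd⟩
  · exact sparse_good (fun n : ℕ => 1 ≤ n) (fun n => DescendsBelow B ((n : ℝ) ^ δ) ((n : ℝ) ^ (1 + v)) n)
      (fun n : ℕ => (n : ℝ)) hf hG (s := 1 - min v (6 / 100 * δ)) (κ := κ) (by linarith [min_le_left v (6 / 100 * δ)]) hκ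
      (Pool.Agent.N481.MV.two_scale (Bad := fun y V n => ¬ DescendsBelow B y V n) hv hv1 hδ hC.le
        (fun y y' V V' n hy hV h h' => h (mono hy hV h')) (fun x y V hx hy hV => law x y V hx hy hV)) U
  · rintro B v δ n ⟨m, h1, h2, h3⟩
    refine ⟨T^[m] n, m, rfl, h2, fun V hV => ⟨fun h k => ?_, fun h k => ?_⟩⟩
    · rw [← Function.iterate_add_apply]
      exact h _
    · rcases Nat.lt_or_ge k m with hk | hk
      · exact (h3 k hk.le).trans hV
      · have h4 := h (k - m)
        rw [← Function.iterate_add_apply, Nat.sub_add_cancel hk] at h4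
        exact h4

end Pool.Agent.Results.MP_0a5adf_nt.SparseArguments
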