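import Pool.Agent.U762.WS.HuF

set_option autoImplicit false

/-!
# MP_3b0be2_nt: Montgomery's conjecture on Weyl sums, the exceptional leading coefficients

For `k ≥ 3` and `ε > 0` let `E_k(ε)` be the set of the real `t` such that for NO constant `C` the inequality of
`H_k(1/k)` holds for all `N ≥ 2`, ALL real `ξ` and all admissible `a / q`. The Hausdorff dimension of `E_3(ε)` is at most
`1 - 9 ε / 5`, and that of `E_k(ε)` at most `1 - (j k - 2^(j+1) + 2^(j+1) ε k) / (k^2 + 1)` for every `1 ≤ j < k`.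
For `k ≥ 5` the union of the `E_k(ε)` over all `ε > 0` has dimension less than `1`, and for every `k ≥ 3` it is a null set.

Means: the number of solutions of the system of degrees `1, 3` in six variables is `O(N^(3+δ))`; Hua's recursion for the system
of degrees `1, k` in `2^(j+1)` variables; a supremum over the linear coefficient, a maximal inequality for incomplete sums,
local constancy at scale `N^(-k-1/k+ε)` and a covering argument.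
-/

namespace Pool.Agent.Results.MP_3b0be2_nt.ExceptionalLeadingCoefficients

open Finset MeasureTheory

/-- the Weyl sum `∑_{n ≤ N} e(t n^k + ξ n)` -/
noncomputable def weylSum (k N : ℕ) (t ξ : ℝ) : ℂ :=
  ∑ n ∈ Icc 1 N, Complex.exp (2 * Real.pi * Complex.I * (t * (n : ℝ) ^ k + ξ * n : ℝ))

/-- the inequality of `H_k(1/k)` at `t`, with `ε` and the constant `C`: for all `N ≥ 2`, all real `ξ` and all coprime
`1 ≤ a < q ≤ N` with `|t - a/q| ≤ 1/q^2` -/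
def Bound (k : ℕ) (ε C t : ℝ) : Prop :=
  ∀ N : ℕ, 2 ≤ N → ∀ ξ : ℝ, ∀ a q : ℕ, 1 ≤ a → a < q → q ≤ N → Nat.Coprime a q →
    |t - (a : ℝ) / q| ≤ 1 / (q : ℝ) ^ 2 →
    ‖weylSum k N t ξ‖ ≤ C * (N : ℝ) ^ (1 + ε) * (1 / (q : ℝ) + 1 / (N : ℝ) + (q : ℝ) / (N : ℝ) ^ k) ^ (1 / (k : ℝ))

/-- the exceptional set `E_k(ε)`: no constant will do -/
def Exc (k : ℕ) (ε : ℝ) : Set ℝ := {t : ℝ | ¬ ∃ C : ℝ, Bound k ε C t}

/-- the union of the exceptional sets over all `ε > 0` -/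
def ExcAll (k : ℕ) : Set ℝ := {t : ℝ | ∃ ε : ℝ, 0 < ε ∧ t ∈ Exc k ε}

lemma weyl_eq (k N : ℕ) (t ξ : ℝ) : weylSum k N t ξ = Pool.Agent.W928.MW.sm k N t ξ := rfl

lemma exc_sub (k : ℕ) (ε : ℝ) :
    Exc k ε ⊆ {t : ℝ | ¬ ∃ C : ℝ, 0 < C ∧ Pool.Agent.W928.MW.Holds k ε C t} := by
  intro t ht hC
  obtain ⟨C, _, h⟩ := hC
  apply ht
  refine ⟨C, fun N hN ξ a q ha haq hq hc hd => ?_⟩
  exact h N (by omega) ξ a q ha haq hq hc hd

lemma exc_mono (k : ℕ) {ε ε' : ℝ} (h : ε ≤ ε') : Exc k ε' ⊆ Exc k ε := by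
  intro t ht hC
  obtain ⟨C, hB⟩ := hC
  apply ht
  refine ⟨|C|, fun N hN ξ a q ha haq hq hc hd => ?_⟩
  have h1 := hB N hN ξ a q ha haq hq hc hd
  refine h1.trans ?_
  have hN1 : (1 : ℝ) ≤ (N : ℝ) := by exact_mod_cast (by omega : 1 ≤ N)
  have h2 : (N : ℝ) ^ (1 + ε) ≤ (N : ℝ) ^ (1 + ε') := Real.rpow_le_rpow_of_exponent_le hN1 (by linarith)
  have h3 : 0 ≤ (1 / (q : ℝ) + 1 / (N : ℝ) + (q : ℝ) / (N : ℝ) ^ k) ^ (1 / (k : ℝ)) :=
    Real.rpow_nonneg (by positivity) _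
  apply mul_le_mul_of_nonneg_right _ h3
  calc C * (N : ℝ) ^ (1 + ε) ≤ |C| * (N : ℝ) ^ (1 + ε) :=
        mul_le_mul_of_nonneg_right (le_abs_self C) (by positivity)
    _ ≤ |C| * (N : ℝ) ^ (1 + ε') := mul_le_mul_of_nonneg_left h2 (abs_nonneg C)

lemma all_sub (k : ℕ) : ExcAll k ⊆ ⋃ n : ℕ, Exc k (1 / ((n : ℝ) + 1)) := by
  rintro t ⟨ε, hε, ht⟩
  obtain ⟨n, hn⟩ := exists_nat_one_div_lt hε
  rw [Set.mem_iUnion]
  exact ⟨n, exc_mono k hn.le ht⟩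

lemma null_of (s : Set ℝ) (x : ℝ) (hx : x < 1) (h : dimH s ≤ ENNReal.ofReal x) : volume s = 0 := by
  have h1 : (volume : Measure ℝ) ≪ Measure.hausdorffMeasure (((1 : NNReal) : ℝ)) := by
    rw [NNReal.coe_one, hausdorffMeasure_real]
  refine measure_zero_of_dimH_lt h1 (lt_of_le_of_lt h ?_)
  rw [ENNReal.coe_one]
  calc ENNReal.ofReal x < ENNReal.ofReal 1 := (ENNReal.ofReal_lt_ofReal_iff one_pos).mpr hx
    _ = 1 := ENNReal.ofReal_one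

/-- **Montgomery's conjecture for Weyl sums: the exceptional leading coefficients.** -/
theorem result (k : ℕ) (hk : 3 ≤ k) :
    (∀ ε : ℝ, 0 < ε → k = 3 → dimH (Exc k ε) ≤ ENNReal.ofReal (1 - 9 * ε / 5)) ∧
    (∀ ε : ℝ, 0 < ε → ∀ j : ℕ, 1 ≤ j → j < k → dimH (Exc k ε) ≤
      ENNReal.ofReal (1 - ((j : ℝ) * k - 2 ^ (j + 1) + 2 ^ (j + 1) * ε * k) / ((k : ℝ) ^ 2 + 1))) ∧
    (∀ j : ℕ, 1 ≤ j → j < k → dimH (ExcAll k) ≤
      ENNReal.ofReal (1 - ((j : ℝ) * k - 2 ^ (j + 1)) / ((k : ℝ) ^ 2 + 1))) ∧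
    (5 ≤ k → dimH (ExcAll k) ≤ ENNReal.ofReal (1 - (2 * k - 8) / ((k : ℝ) ^ 2 + 1)) ∧ dimH (ExcAll k) < 1) ∧
    volume (ExcAll k) = 0 ∧
    ∀ᵐ t : ℝ, ∀ ε : ℝ, 0 < ε → ∃ C : ℝ, Bound k ε C t := by
  have hk2 : 2 ≤ k := by omega
  have hk3 : (3 : ℝ) ≤ (k : ℝ) := by exact_mod_cast hk
  have hkk : (0 : ℝ) < (k : ℝ) ^ 2 + 1 := by positivity
  have P1 : ∀ ε : ℝ, 0 < ε → k = 3 → dimH (Exc k ε) ≤ ENNReal.ofReal (1 - 9 * ε / 5) := by
    intro ε hε h3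
    subst h3
    exact (dimH_mono (exc_sub 3 ε)).trans (Pool.Agent.U762.WS.dim_three ε hε)
  have P2 : ∀ ε : ℝ, 0 < ε → ∀ j : ℕ, 1 ≤ j → j < k → dimH (Exc k ε) ≤
      ENNReal.ofReal (1 - ((j : ℝ) * k - 2 ^ (j + 1) + 2 ^ (j + 1) * ε * k) / ((k : ℝ) ^ 2 + 1)) := by
    intro ε hε j hj1 hj
    exact (dimH_mono (exc_sub k ε)).trans (Pool.Agent.U762.WS.dim_gen k j hk2 hj1 hj ε hε)
  have P3 : ∀ j : ℕ, 1 ≤ j → j < k → dimH (ExcAll k) ≤
      ENNReal.ofReal (1 - ((j : ℝ) * k - 2 ^ (j + 1)) / ((k : ℝ) ^ 2 + 1)) := by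
    intro j hj1 hj
    refine (dimH_mono (all_sub k)).trans ?_
    rw [dimH_iUnion]
    apply iSup_le
    intro n
    have hn : (0 : ℝ) < 1 / ((n : ℝ) + 1) := by positivity
    refine (P2 _ hn j hj1 hj).trans (ENNReal.ofReal_le_ofReal ?_)
    have h1 : (0 : ℝ) ≤ 2 ^ (j + 1) * (1 / ((n : ℝ) + 1)) * k := by positivity
    have h2 : ((j : ℝ) * k - 2 ^ (j + 1)) / ((k : ℝ) ^ 2 + 1) ≤
        ((j : ℝ) * k - 2 ^ (j + 1) + 2 ^ (j + 1) * (1 / ((n : ℝ) + 1)) * k) / ((k : ℝ) ^ 2 + 1) :=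
      div_le_div_of_nonneg_right (by linarith) hkk.le
    linarith
  have P4 : 5 ≤ k → dimH (ExcAll k) ≤ ENNReal.ofReal (1 - (2 * k - 8) / ((k : ℝ) ^ 2 + 1)) ∧
      dimH (ExcAll k) < 1 := by
    intro h5
    have h5' : (5 : ℝ) ≤ (k : ℝ) := by exact_mod_cast h5
    have h1 := P3 2 (by norm_num) (by omega)
    have e1 : (((2 : ℕ) : ℝ) * k - 2 ^ (2 + 1)) = 2 * k - 8 := by push_cast; norm_num
    rw [e1] at h1
    refine ⟨h1, lt_of_le_of_lt h1 ?_⟩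
    have h2 : 0 < (2 * (k : ℝ) - 8) / ((k : ℝ) ^ 2 + 1) := div_pos (by linarith) hkk
    calc ENNReal.ofReal (1 - (2 * k - 8) / ((k : ℝ) ^ 2 + 1)) < ENNReal.ofReal 1 :=
          (ENNReal.ofReal_lt_ofReal_iff one_pos).mpr (by linarith)
      _ = 1 := ENNReal.ofReal_one
  have P5 : volume (ExcAll k) = 0 := by
    refine measure_mono_null (all_sub k) ?_
    rw [measure_iUnion_null_iff]
    intro n
    have hn : (0 : ℝ) < 1 / ((n : ℝ) + 1) := by positivity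
    rcases Nat.lt_or_ge k 4 with h4 | h4
    · have h3 : k = 3 := by omega
      exact null_of _ _ (by linarith) (P1 _ hn h3)
    · have h4' : (4 : ℝ) ≤ (k : ℝ) := by exact_mod_cast h4
      refine null_of _ _ ?_ (P2 _ hn 2 (by norm_num) (by omega))
      have e1 : (((2 : ℕ) : ℝ) * k - 2 ^ (2 + 1)) = 2 * k - 8 := by push_cast; norm_num
      rw [e1]
      have h1 : (0 : ℝ) < 2 ^ (2 + 1) * (1 / ((n : ℝ) + 1)) * k := by positivity
      have h2 : 0 < (2 * (k : ℝ) - 8 + 2 ^ (2 + 1) * (1 / ((n : ℝ) + 1)) * k) / ((k : ℝ) ^ 2 + 1) :=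
        div_pos (by linarith) hkk
      linarith
  refine ⟨P1, P2, P3, P4, P5, ?_⟩
  have h6 : ∀ᵐ t : ℝ, t ∉ ExcAll k := measure_eq_zero_iff_ae_notMem.mp P5
  filter_upwards [h6] with t ht ε hε
  by_contra hcon
  exact ht ⟨ε, hε, hcon⟩

end Pool.Agent.Results.MP_3b0be2_nt.ExceptionalLeadingCoefficients
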