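import Pool.Agent.U380.MR.V8
import Pool.Agent.U380.MR.V5

set_option autoImplicit false

/-!
Multiple ergodic averages and multiple recurrence along the integers with a prescribed total stopping time.

Commuting measure preserving transformations are written as an action of a commutative group `G` on a
probability space: the `i`-th transformation is `x ↦ g i +ᵥ x`, its `n`-th power is `x ↦ (n • g i) +ᵥ x`.
-/

namespace Pool.Agent.Results.MP_a1568a_nt.RecurrenceOfTimes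

open Filter Topology MeasureTheory

/-- the `3x+1` function -/
def T (n : ℕ) : ℕ := if n % 2 = 0 then n / 2 else (3 * n + 1) / 2

/-- `t` is the total stopping time of `n` -/
def IsTotalStoppingTime (n t : ℕ) : Prop := T^[t] n = 1 ∧ ∀ j < t, T^[j] n ≠ 1

/-- the positive integers with the property `P` have the natural density `δ` -/
def HasDensity (P : ℕ → Prop) (δ : ℝ) : Prop :=
  Tendsto (fun N : ℕ => ({n : ℕ | 1 ≤ n ∧ n ≤ N ∧ P n}.ncard : ℝ) / N) atTop (𝓝 δ)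

/-- `2 / log (4/3) * log n + x * log 3 * √(2 log n / (log (4/3))^3)` -/
noncomputable def bound (x : ℝ) (n : ℕ) : ℝ :=
  2 / Real.log (4 / 3) * Real.log n
    + x * (Real.log 3 * Real.sqrt (2 * Real.log n / Real.log (4 / 3) ^ 3))

/-- The distribution function of the standard normal law. -/
noncomputable def Phi (x : ℝ) : ℝ :=
  ProbabilityTheory.cdf (ProbabilityTheory.gaussianReal 0 1) x

/-- The positive integers with a finite total stopping time which is larger than `bound y n`, at most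
`bound x n`, and congruent to `a` modulo `m`. -/
def Window (m : ℕ) (a : ℤ) (y x : ℝ) : Set ℤ :=
  {n : ℤ | 0 < n ∧ ∃ t : ℕ, bound y n.toNat < t ∧ (t : ℝ) ≤ bound x n.toNat ∧ IsTotalStoppingTime n.toNat t ∧ (t : ℤ) ≡ a [ZMOD m]}

/-- The positive integers with a total stopping time at most `c * log n`. -/
def Logarithmic (c : ℝ) : Set ℤ :=
  {n : ℤ | 0 < n ∧ ∃ t : ℕ, (t : ℝ) ≤ c * Real.log n ∧ IsTotalStoppingTime n.toNat t}

/-- The windows, with `δ * (Phi x - Phi y) / m`, and the sets `Logarithmic c`, `c ≥ c₁`, with `δ`. -/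
def Family (m : ℕ) (c₁ δ : ℝ) : Set (Set ℤ × ℝ) :=
  {p | (∃ (a : ℤ) (y x : ℝ), y ≤ x ∧ p = (Window m a y x, δ * (Phi x - Phi y) / m)) ∨ ∃ c : ℝ, c₁ ≤ c ∧ p = (Logarithmic c, δ)}

/-- The measure of the set of the points `x` for which all `(n • g t) +ᵥ x` are in `B`. -/
noncomputable def Return {G Ω : Type} [AddCommGroup G] [MeasurableSpace Ω] [AddAction G Ω] (μ : Measure Ω) {q : ℕ}
    (g : Fin q → G) (B : Set Ω) (n : ℤ) : ℝ := μ.real {x | ∀ t, (n • g t) +ᵥ x ∈ B}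

/-- The cube `∏ [x i, x i + L)` -/
def Cube {e : ℕ} (x : Fin e → ℤ) (L : ℕ) : Set (Fin e → ℤ) := {v | ∀ i, x i ≤ v i ∧ v i < x i + L}

/-- Upper Banach density at least `ρ`: there are arbitrarily large cubes in which the density of `A` is at
least `ρ`. -/
def Dense {e : ℕ} (A : Set (Fin e → ℤ)) (ρ : ℝ) : Prop :=
  ∀ L₀ : ℕ, ∃ L : ℕ, L₀ ≤ L ∧ ∃ x : Fin e → ℤ, ρ * (L : ℝ) ^ e ≤ ((A ∩ Cube x L).ncard : ℝ)

/-- The points `a` for which the copy `a + n F` of the configuration `F` is contained in `A`. -/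
def Copies {q e : ℕ} (F : Fin q → Fin e → ℤ) (A : Set (Fin e → ℤ)) (n : ℤ) : Set (Fin e → ℤ) :=
  {a | ∀ t, a + n • F t ∈ A}

open Pool.Agent.U380.MR (Rc Av Rt Gd LS LS_sub LS_cls LS_lcls LS_union LS_zero LS_mono rec_LS cls lcls LgS exc_small)
open Pool.Agent.W36.GU (win)
open Pool.Agent.W36.JL (SX EB TS bd lawE)
open Pool.Agent.W41 (ind ind_nonneg ind_le_one)
open Pool.Agent.W41.FU (bal)
open Pool.Agent.H499R2.ND (Dn cnt Tn)

theorem phi_eq (x : ℝ) : Pool.Agent.H499R2.ND.Phi x = Phi x := Pool.Agent.H499R2.ND.phi_cdf x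

/-- the windows as differences of level sets -/
theorem mem_window {m : ℕ} {a : ℤ} {y x : ℝ} {n : ℤ} : n ∈ Window m a y x ↔ n ∈ SX m a x ∧ n ∉ SX m a y := by
  constructor
  · rintro ⟨h0, t, h1, h2, h3, h4⟩
    refine ⟨⟨h0, t, h2, h3, h4⟩, ?_⟩
    rintro ⟨-, t', h5, h6, -⟩
    obtain rfl := Pool.Agent.W36.JL.TS_unique h6 h3
    exact absurd h5 (not_le.2 h1)
  · rintro ⟨⟨h0, t, h2, h3, h4⟩, h5⟩
    refine ⟨h0, t, ?_, h2, h3, h4⟩
    by_contra h6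
    exact h5 ⟨h0, t, not_lt.1 h6, h3, h4⟩

theorem ind_window {m : ℕ} {a : ℤ} {y x : ℝ} (hyx : y ≤ x) (n : ℤ) :
    ind 1 (Window m a y x) n = ind 1 (SX m a x) n - ind 1 (SX m a y) n := by
  have hsub : n ∈ SX m a y → n ∈ SX m a x := fun hn => ⟨hn.1, Pool.Agent.W36.JL.EB_mono (Pool.Agent.W36.JL.bd_mono hyx _) hn.2⟩
  unfold ind
  rw [one_mul]
  by_cases h1 : n ∈ SX m a y
  · rw [if_pos h1, if_pos (hsub h1), if_neg (fun h => (mem_window.1 h).2 h1)]; norm_num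
  · by_cases h2 : n ∈ SX m a x
    · rw [if_neg h1, if_pos h2, if_pos (mem_window.2 ⟨h2, h1⟩)]; norm_num
    · rw [if_neg h1, if_neg h2, if_neg (fun h => h2 (mem_window.1 h).1)]; norm_num

theorem ind_eq (S : Set ℤ) (n : ℤ) : S.indicator (fun _ => (1 : ℝ)) n = ind 1 S n := by
  unfold ind
  rw [one_mul]
  by_cases h : n ∈ S
  · rw [Set.indicator_of_mem h, if_pos h]
  · rw [Set.indicator_of_notMem h, if_neg h]

theorem ind_compl (S : Set ℤ) (n : ℤ) : Sᶜ.indicator (fun _ => (1 : ℝ)) n = 1 - ind 1 S n := by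
  unfold ind
  rw [one_mul]
  by_cases h : n ∈ S
  · rw [Set.indicator_of_notMem (by simpa using h), if_pos h]; norm_num
  · rw [Set.indicator_of_mem (by simpa using h), if_neg h]; norm_num

theorem Ioc_eq (N : ℕ) : Finset.Ioc (0 : ℤ) N = Finset.Icc (1 : ℤ) N := by
  ext n; rw [Finset.mem_Ioc, Finset.mem_Icc]; omega

/-- the class of weights -/
def W (m : ℕ) (c₁ δ : ℝ) : Set (ℤ → ℝ) := {f | ∃ p ∈ Family m c₁ δ, f = fun n => ind 1 p.1 n - p.2}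

theorem LS_W {δ : ℝ} (h0 : 0 < δ) (h1 : δ ≤ 1) {m : ℕ} (hm : 1 ≤ m)
    (hlaw : ∀ (m : ℕ) (a : ℤ), 1 ≤ m → ∀ x : ℝ, Dn (fun n => EB m a (bd x n) n) (δ * Pool.Agent.H499R2.ND.Phi x / m))
    (hbas : Dn (fun n => ∃ k : ℕ, Tn^[k] n = 1) δ) {c₁ : ℝ} (hc₁ : 2 / Real.log (4 / 3) < c₁) (k : ℕ) : LS k (W m c₁ δ) := by
  apply LS_mono (LS_union (LS_sub (LS_cls h0 h1 hm hlaw hbas k)) (LS_lcls h0 h1 hlaw hbas hc₁ k))
  rintro f ⟨p, hp | hp, rfl⟩
  · obtain ⟨a, y, x, hyx, rfl⟩ := hp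
    left
    refine ⟨_, ⟨a, x, rfl⟩, _, ⟨a, y, rfl⟩, ?_⟩
    ext n
    unfold bal
    simp only
    rw [ind_window hyx, phi_eq, phi_eq]
    ring
  · obtain ⟨c, hc, rfl⟩ := hp
    right
    exact ⟨c, hc, rfl⟩

theorem partA {m k : ℕ} {c₁ δ : ℝ} (hLS : LS k (W m c₁ δ)) (ε : ℝ) (hε : 0 < ε) :
    ∃ N₀ : ℕ, ∀ p ∈ Family m c₁ δ,
      ∀ (G Ω : Type) [AddCommGroup G] [MeasurableSpace Ω] [AddAction G Ω] [MeasurableConstVAdd G Ω]
        (μ : Measure Ω) [IsProbabilityMeasure μ] [VAddInvariantMeasure G Ω μ] (g : Fin k → G) (φ : Fin k → Ω → ℝ),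
        (∀ i, Measurable (φ i)) → (∀ i x, |φ i x| ≤ 1) → ∀ N : ℕ, N₀ ≤ N → ∀ M N' : ℕ, M ≤ N' → N' ≤ N →
        ∫ x, (∑ n ∈ Finset.Ioc (M : ℤ) N', (p.1.indicator (fun _ => (1 : ℝ)) n - p.2) * ∏ i, φ i ((n • g i) +ᵥ x)) ^ 2 ∂μ
          ≤ ε * (N : ℝ) ^ 2 := by
  obtain ⟨N0, h⟩ := hLS ε hε
  refine ⟨N0, fun p hp => ?_⟩
  intro G Ω _ _ _ _ μ _ _ g φ hφ hφ1 N hN M N' hM hN'
  refine le_trans (le_of_eq ?_) (h _ ⟨p, hp, rfl⟩ G Ω μ g φ ⟨hφ, hφ1⟩ N hN M N' hM hN')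
  congr 1
  ext z
  congr 1
  unfold Av
  have hsub : Finset.Ioc (M : ℤ) N' ⊆ Finset.Icc (1 : ℤ) N := by
    intro n hn
    rw [Finset.mem_Ioc] at hn
    rw [Finset.mem_Icc]
    omega
  rw [← Finset.sum_subset hsub]
  · apply Finset.sum_congr rfl
    intro n hn
    rw [Finset.mem_Ioc] at hn
    unfold win
    rw [if_pos hn, ind_eq]
  · intro n _ hn
    rw [Finset.mem_Ioc] at hn
    unfold win
    rw [if_neg hn, zero_mul]

theorem recW {m q : ℕ} {c₁ δ : ℝ} (hLS : LS (q + 1) (W m c₁ δ)) {γ ρ : ℝ} (hγ : 0 < γ) (hρ : 0 < ρ) :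
    ∃ c : ℝ, 0 < c ∧ ∃ N₀ : ℕ, ∀ p ∈ Family m c₁ δ, γ ≤ p.2 → ∀ N : ℕ, N₀ ≤ N → Rc (ind 1 p.1) q ρ c N := by
  obtain ⟨c, hc, N0, h⟩ := rec_LS q hLS γ ρ hγ hρ
  refine ⟨c, hc, N0, fun p hp hγp N hN => ?_⟩
  intro G Ω _ _ _ _ μ _ _ B hB hμB g
  exact h (ind 1 p.1) _ hγp ⟨p, hp, rfl⟩ G Ω μ B hB hμB g N hN

theorem partB {m q : ℕ} {c₁ δ : ℝ} (hLS : LS (q + 1) (W m c₁ δ)) {γ ρ : ℝ} (hγ : 0 < γ) (hρ : 0 < ρ) :
    ∃ c : ℝ, 0 < c ∧ ∃ N₀ : ℕ, ∀ p ∈ Family m c₁ δ, γ ≤ p.2 →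
      ∀ (G Ω : Type) [AddCommGroup G] [MeasurableSpace Ω] [AddAction G Ω] [MeasurableConstVAdd G Ω]
        (μ : Measure Ω) [IsProbabilityMeasure μ] [VAddInvariantMeasure G Ω μ] (B : Set Ω), MeasurableSet B → ρ ≤ μ.real B →
        ∀ (g : Fin (q + 1) → G) (N : ℕ), N₀ ≤ N →
          c * N ≤ ∑ n ∈ Finset.Ioc (0 : ℤ) N, p.1.indicator (fun _ => (1 : ℝ)) n * Return μ g B n := by
  obtain ⟨c, hc, N0, h⟩ := recW hLS hγ hρ
  refine ⟨c, hc, N0, fun p hp hγp => ?_⟩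
  intro G Ω _ _ _ _ μ _ _ B hB hμB g N hN
  have h1 := h p hp hγp N hN G Ω μ B hB hμB g
  rw [Ioc_eq]
  simp_rw [ind_eq]
  exact h1

theorem partC {m q : ℕ} {c₁ δ : ℝ} (hLS : LS (q + 1) (W m c₁ δ)) {e : ℕ} (F : Fin (q + 1) → Fin e → ℤ)
    {γ ρ : ℝ} (hγ : 0 < γ) (hρ : 0 < ρ) :
    ∃ c : ℝ, 0 < c ∧ ∃ N₀ : ℕ, ∀ p ∈ Family m c₁ δ, γ ≤ p.2 → ∀ N : ℕ, N₀ ≤ N →
      (∀ (L : ℕ) (x : Fin e → ℤ) (A : Set (Fin e → ℤ)), N ≤ L → A ⊆ Cube x L → ρ * (L : ℝ) ^ e ≤ (A.ncard : ℝ) →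
        c * N * (L : ℝ) ^ e ≤ ({v : (Fin e → ℤ) × ℤ | 0 < v.2 ∧ v.2 ≤ N ∧ v.2 ∈ p.1 ∧ v.1 ∈ Copies F A v.2}.ncard : ℝ)) ∧
      (∀ A : Set (Fin e → ℤ), Dense A ρ →
        c * N ≤ ({n : ℤ | 0 < n ∧ n ≤ N ∧ n ∈ p.1 ∧ Dense (Copies F A n) c}.ncard : ℝ)) := by
  classical
  obtain ⟨R, hR⟩ := Pool.Agent.U380.MR.exists_bound F
  obtain ⟨c, hc, N0, h⟩ := recW hLS (ρ := ρ / (2 * R + 1) ^ e) hγ (by positivity)
  refine ⟨c / 2, by positivity, N0 + 1, fun p hp hγp N hN => ?_⟩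
  have hRc := h p hp hγp N (by omega)
  generalize p.1 = S at hRc
  constructor
  · intro L v A hNL hAC hA
    have hAi : A ∩ Pool.Agent.U380.MR.Cube v L = A := Set.inter_eq_left.2 hAC
    have h1 := Pool.Agent.U380.MR.cube_case (u := ind 1 S) (ind_nonneg 1 S) F hR hc.le hRc hNL (by omega) v A (by rw [hAi]; exact hA)
    rw [← Pool.Agent.U380.MR.pairs_eq, hAi] at h1
    simp only [one_mul] at h1
    have h2 : c / 2 * N * (L : ℝ) ^ e ≤ c * N * (L : ℝ) ^ e := by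
      apply mul_le_mul_of_nonneg_right _ (by positivity)
      apply mul_le_mul_of_nonneg_right _ (by positivity)
      linarith
    exact h2.trans h1
  · intro A hA
    have h1 := Pool.Agent.U380.MR.dense_case (u := ind 1 S) (ind_nonneg 1 S) (ind_le_one 1 S) F hR hc.le hRc A hA
    rw [← Set.ncard_coe_finset] at h1
    refine h1.trans (le_of_eq ?_)
    congr 2
    ext n
    simp only [Finset.coe_filter, Finset.mem_Icc, Set.mem_ofPred_eq]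
    have e1 : ind 1 S n ≠ 0 ↔ n ∈ S := by
      unfold ind
      rw [one_mul]
      by_cases h : n ∈ S <;> simp [h]
    rw [e1]
    constructor
    · rintro ⟨⟨h2, h3⟩, h4, h5⟩
      exact ⟨by omega, h3, h4, h5⟩
    · rintro ⟨h2, h3, h4, h5⟩
      exact ⟨⟨by omega, h3⟩, h4, h5⟩

/-- recurrence along the exceptions -/
theorem rec_exc {δ : ℝ} (h0 : 0 < δ) (h1 : δ < 1)
    (hlaw : ∀ (m : ℕ) (a : ℤ), 1 ≤ m → ∀ x : ℝ, Dn (fun n => EB m a (bd x n) n) (δ * Pool.Agent.H499R2.ND.Phi x / m))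
    (hbas : Dn (fun n => ∃ k : ℕ, Tn^[k] n = 1) δ) {c₁ : ℝ} (hc₁ : 2 / Real.log (4 / 3) < c₁) (q : ℕ) {ρ : ℝ} (hρ : 0 < ρ) :
    ∃ c : ℝ, 0 < c ∧ ∃ N₀ : ℕ, ∀ N : ℕ, N₀ ≤ N → Rc (fun n => 1 - ind 1 (Logarithmic c₁) n) q ρ c N := by
  have hLS := LS_sub (LS_union (LS_zero (q + 1)) (LS_lcls h0 h1.le hlaw hbas hc₁ (q + 1)))
  obtain ⟨c, hc, N0, h⟩ := rec_LS q hLS (1 - δ) ρ (by linarith) hρ
  refine ⟨c, hc, N0, fun N hN => ?_⟩
  intro G Ω _ _ _ _ μ _ _ B hB hμB g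
  refine h _ (1 - δ) le_rfl ⟨_, Or.inl rfl, _, Or.inr ⟨c₁, le_rfl, rfl⟩, ?_⟩ G Ω μ B hB hμB g N hN
  ext n
  show (1 - ind 1 (Logarithmic c₁) n) - (1 - δ) = 0 - (ind 1 (Logarithmic c₁) n - δ)
  ring

theorem Return_le {G Ω : Type} [AddCommGroup G] [MeasurableSpace Ω] [AddAction G Ω] (μ : Measure Ω) [IsProbabilityMeasure μ] {q : ℕ}
    (g : Fin q → G) (B : Set Ω) (n : ℤ) : Return μ g B n ≤ 1 := measureReal_le_one

theorem Return_nonneg {G Ω : Type} [AddCommGroup G] [MeasurableSpace Ω] [AddAction G Ω] (μ : Measure Ω) {q : ℕ}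
    (g : Fin q → G) (B : Set Ω) (n : ℤ) : 0 ≤ Return μ g B n := measureReal_nonneg

theorem partD {δ : ℝ} (h0 : 0 < δ) (h1 : δ ≤ 1) (hδ : δ = 1 ↔ ∀ n : ℕ, 1 ≤ n → ∃ k : ℕ, Tn^[k] n = 1)
    (hlaw : ∀ (m : ℕ) (a : ℤ), 1 ≤ m → ∀ x : ℝ, Dn (fun n => EB m a (bd x n) n) (δ * Pool.Agent.H499R2.ND.Phi x / m))
    (hbas : Dn (fun n => ∃ k : ℕ, Tn^[k] n = 1) δ) {c₁ : ℝ} (hc₁ : 2 / Real.log (4 / 3) < c₁)
    (G Ω : Type) [AddCommGroup G] [MeasurableSpace Ω] [AddAction G Ω] [MeasurableConstVAdd G Ω]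
    (μ : Measure Ω) [IsProbabilityMeasure μ] [VAddInvariantMeasure G Ω μ] (B : Set Ω) (hB : MeasurableSet B) (hμ : 0 < μ B)
    (q : ℕ) (g : Fin (q + 1) → G) :
    (∀ n : ℕ, 1 ≤ n → ∃ k, T^[k] n = 1) ↔ ∀ c : ℝ, 0 < c → ∃ᶠ N : ℕ in atTop,
      ∑ n ∈ Finset.Ioc (0 : ℤ) N, (Logarithmic c₁)ᶜ.indicator (fun _ => (1 : ℝ)) n * Return μ g B n ≤ c * N := by
  constructor
  · intro h
    have h2 : δ = 1 := hδ.2 h
    subst h2
    intro c hc
    obtain ⟨N1, h3⟩ := exc_small hlaw hbas hc₁ hc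
    apply Eventually.frequently
    filter_upwards [eventually_ge_atTop N1] with N hN
    refine le_trans ?_ (h3 N hN)
    rw [Ioc_eq]
    apply Finset.sum_le_sum
    intro n _
    rw [ind_compl]
    exact mul_le_of_le_one_right (sub_nonneg.2 (ind_le_one _ _ _)) (Return_le μ g B n)
  · intro h
    by_contra hcon
    have h2 : δ ≠ 1 := fun h3 => hcon (hδ.1 h3)
    have hρ : 0 < μ.real B := by
      unfold Measure.real
      exact ENNReal.toReal_pos hμ.ne' (measure_ne_top μ B)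
    obtain ⟨c, hc, N0, h3⟩ := rec_exc h0 (lt_of_le_of_ne h1 h2) hlaw hbas hc₁ q hρ
    obtain ⟨N, h4, h5⟩ := ((h (c / 2) (by positivity)).and_eventually (eventually_ge_atTop (N0 + 1))).exists
    have h6 := h3 N (by omega) G Ω μ B hB le_rfl g
    rw [Ioc_eq] at h4
    simp_rw [ind_compl] at h4
    have hN : (0 : ℝ) < N := by exact_mod_cast (by omega : 0 < N)
    have h7 := h6.trans h4
    nlinarith

theorem partE {δ : ℝ} (h0 : 0 < δ) (h1 : δ ≤ 1) (hδ : δ = 1 ↔ ∀ n : ℕ, 1 ≤ n → ∃ k : ℕ, Tn^[k] n = 1)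
    (hlaw : ∀ (m : ℕ) (a : ℤ), 1 ≤ m → ∀ x : ℝ, Dn (fun n => EB m a (bd x n) n) (δ * Pool.Agent.H499R2.ND.Phi x / m))
    (hbas : Dn (fun n => ∃ k : ℕ, Tn^[k] n = 1) δ) {c₁ : ℝ} (hc₁ : 2 / Real.log (4 / 3) < c₁)
    {q e : ℕ} (F : Fin (q + 1) → Fin e → ℤ) {ρ : ℝ} (hρ : 0 < ρ) (A : Set (Fin e → ℤ)) (hA : Dense A ρ) :
    (∀ n : ℕ, 1 ≤ n → ∃ k, T^[k] n = 1) ↔ ∀ c : ℝ, 0 < c → ∃ᶠ N : ℕ in atTop,
      ({n : ℤ | 0 < n ∧ n ≤ N ∧ n ∉ Logarithmic c₁ ∧ Dense (Copies F A n) c}.ncard : ℝ) ≤ c * N := by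
  classical
  constructor
  · intro h
    have h2 : δ = 1 := hδ.2 h
    subst h2
    intro c hc
    obtain ⟨N1, h3⟩ := exc_small hlaw hbas hc₁ hc
    apply Eventually.frequently
    filter_upwards [eventually_ge_atTop N1] with N hN
    refine le_trans ?_ (h3 N hN)
    have e1 : ∑ n ∈ Finset.Icc (1 : ℤ) N, (1 - ind 1 (LgS c₁) n)
        = (((Finset.Icc (1 : ℤ) N).filter (fun n => n ∉ Logarithmic c₁)).card : ℝ) := by
      rw [← Finset.sum_boole]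
      apply Finset.sum_congr rfl
      intro n _
      unfold ind
      rw [one_mul]
      by_cases h : n ∈ Logarithmic c₁
      · rw [if_pos (show n ∈ LgS c₁ from h), if_neg (fun h' => h' h)]; norm_num
      · rw [if_neg (show n ∉ LgS c₁ from h), if_pos h]; norm_num
    rw [e1, ← Set.ncard_coe_finset]
    have e2 : {n : ℤ | 0 < n ∧ n ≤ N ∧ n ∉ Logarithmic c₁ ∧ Dense (Copies F A n) c}
        ⊆ ((Finset.Icc (1 : ℤ) N).filter (fun n => n ∉ Logarithmic c₁) : Set ℤ) := by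
      rintro n ⟨h4, h5, h6, -⟩
      rw [Finset.coe_filter, Set.mem_ofPred_eq, Finset.mem_Icc]
      exact ⟨⟨by omega, h5⟩, h6⟩
    exact Nat.cast_le.2 (Set.ncard_le_ncard e2 (Finset.finite_toSet _))
  · intro h
    by_contra hcon
    have h2 : δ ≠ 1 := fun h3 => hcon (hδ.1 h3)
    obtain ⟨R, hR⟩ := Pool.Agent.U380.MR.exists_bound F
    obtain ⟨c, hc, N0, h3⟩ := rec_exc h0 (lt_of_le_of_ne h1 h2) hlaw hbas hc₁ q (ρ := ρ / (2 * R + 1) ^ e) (by positivity)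
    obtain ⟨N, h4, h5⟩ := ((h (c / 4) (by positivity)).and_eventually (eventually_ge_atTop (N0 + 1))).exists
    have h6 := Pool.Agent.U380.MR.dense_case (u := fun n => 1 - ind 1 (Logarithmic c₁) n) (fun n => sub_nonneg.2 (ind_le_one _ _ _))
      (fun n => by have := ind_nonneg 1 (Logarithmic c₁) n; show 1 - ind 1 (Logarithmic c₁) n ≤ 1; linarith) F hR hc.le (h3 N (by omega)) A hA
    rw [← Set.ncard_coe_finset] at h6
    have hN : (0 : ℝ) < N := by exact_mod_cast (by omega : 0 < N)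
    have h7 : (((Finset.Icc (1 : ℤ) N).filter (fun n => 1 - ind 1 (Logarithmic c₁) n ≠ 0 ∧
        Pool.Agent.U380.MR.Dense {a : Fin e → ℤ | ∀ t, a + n • F t ∈ A} (c / 2)) : Set ℤ).ncard : ℝ)
        ≤ ({n : ℤ | 0 < n ∧ n ≤ N ∧ n ∉ Logarithmic c₁ ∧ Dense (Copies F A n) (c / 4)}.ncard : ℝ) := by
      refine Nat.cast_le.2 (Set.ncard_le_ncard ?_ ?_)
      · intro n hn
        rw [Finset.mem_coe, Finset.mem_filter, Finset.mem_Icc] at hn
        obtain ⟨⟨h8, h9⟩, h10, h11⟩ := hn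
        refine ⟨by omega, h9, ?_, fun L0 => ?_⟩
        · intro h12
          apply h10
          unfold ind
          rw [one_mul, if_pos h12]
          norm_num
        · obtain ⟨L, hL, y, hy⟩ := h11 L0
          refine ⟨L, hL, y, le_trans ?_ hy⟩
          apply mul_le_mul_of_nonneg_right (by linarith) (by positivity)
      · apply Set.Finite.subset (Finset.finite_toSet (Finset.Ioc (0 : ℤ) N))
        rintro n ⟨h8, h9, -, -⟩
        rw [Finset.mem_coe, Finset.mem_Ioc]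
        exact ⟨h8, h9⟩
    have h8 := (h6.trans h7).trans h4
    nlinarith

/-- Commuting transformations `T i`, `i < k`, preserving a probability measure are given as an action of a
commutative group `G`, `T i x = g i + x`; `δ` is the natural density of the integers that reach `1`.
The family consists of the pairs `(S, d)`, where `S` is the set of the integers with a total stopping time
congruent to `a` modulo `m` and in a window around `2 / log (4/3) * log n` given by `y ≤ x`, and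
`d = δ (Phi x - Phi y) / m`, or `S` is the set of the integers with a total stopping time at most `c log n`
for some `c ≥ c₁`, where `c₁ > 2 / log (4/3)`, and `d = δ`.
(A) Uniformly in the pair `(S, d)`, the transformations and the measurable functions `φ i` bounded by `1`, the
sums over `n` of `(1_S(n) - d) ∏ i, φ i (T i ^ n x)` on the intervals `(M, N']` with `N' ≤ N` are `o(N)` in `L²`.
(B) (Multiple recurrence.) Let `d ≥ γ > 0` and `μ B ≥ ρ > 0`. For `N ≥ N₀` the sum of the measures of the sets of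
the points `x` with all `T t ^ n x` in `B` over the `n ≤ N` in `S` is at least `c N`, where `c > 0` and `N₀`
depend on `m`, `c₁`, the number of transformations, `γ` and `ρ`.
(C) (Configurations in dense sets.) For a finite configuration `F` in `ℤ ^ e`, `d ≥ γ`, `N₀ ≤ N ≤ L`, and every
subset `A` of a cube of side `L` with at least `ρ L ^ e` elements, at least `c N L ^ e` of the pairs `(a, n)`,
`0 < n ≤ N`, `n ∈ S`, are such that `a + n F` is contained in `A`. For every subset `A` of `ℤ ^ e` of upper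
Banach density at least `ρ`, at least `c N` of the integers `n` with `0 < n ≤ N`, `n ∈ S`, are such that the
set of the `a` with `a + n F` contained in `A` has upper Banach density at least `c`.
(D) For `c₁ > 2 / log (4/3)`, all transformations and every set `B` of positive measure: all positive integers
reach `1` if and only if, for each `c > 0`, the sum of the measures of the sets in (B) over the
exceptions `n ≤ N` to the inequality `σ(n) ≤ c₁ log n` for the total stopping time `σ(n)` is infinitely often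
at most `c N`.
(E) For `c₁ > 2 / log (4/3)`, every configuration `F` and every set `A` of positive upper Banach density: all
positive integers reach `1` if and only if, for each `c > 0`, for infinitely many `N` at most `c N` of the
exceptions `n ≤ N` to `σ(n) ≤ c₁ log n` are such that the set of the `a` with `a + n F` contained in `A` has
upper Banach density at least `c`. -/
theorem result : ∃ δ : ℝ, 0 < δ ∧ δ ≤ 1 ∧ (δ = 1 ↔ ∀ n : ℕ, 1 ≤ n → ∃ k, T^[k] n = 1) ∧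
    HasDensity (fun n => ∃ k, T^[k] n = 1) δ ∧
    (∀ (m : ℕ) (c₁ : ℝ), 1 ≤ m → 2 / Real.log (4 / 3) < c₁ →
      (∀ (k : ℕ) (ε : ℝ), 0 < ε → ∃ N₀ : ℕ, ∀ p ∈ Family m c₁ δ,
        ∀ (G Ω : Type) [AddCommGroup G] [MeasurableSpace Ω] [AddAction G Ω] [MeasurableConstVAdd G Ω]
          (μ : Measure Ω) [IsProbabilityMeasure μ] [VAddInvariantMeasure G Ω μ] (g : Fin k → G) (φ : Fin k → Ω → ℝ),
          (∀ i, Measurable (φ i)) → (∀ i x, |φ i x| ≤ 1) → ∀ N : ℕ, N₀ ≤ N → ∀ M N' : ℕ, M ≤ N' → N' ≤ N →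
          ∫ x, (∑ n ∈ Finset.Ioc (M : ℤ) N', (p.1.indicator (fun _ => (1 : ℝ)) n - p.2) * ∏ i, φ i ((n • g i) +ᵥ x)) ^ 2 ∂μ
            ≤ ε * (N : ℝ) ^ 2) ∧
      (∀ (q : ℕ) (γ ρ : ℝ), 0 < γ → 0 < ρ → ∃ c : ℝ, 0 < c ∧ ∃ N₀ : ℕ, ∀ p ∈ Family m c₁ δ, γ ≤ p.2 →
        ∀ (G Ω : Type) [AddCommGroup G] [MeasurableSpace Ω] [AddAction G Ω] [MeasurableConstVAdd G Ω]
          (μ : Measure Ω) [IsProbabilityMeasure μ] [VAddInvariantMeasure G Ω μ] (B : Set Ω), MeasurableSet B → ρ ≤ μ.real B →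
          ∀ (g : Fin (q + 1) → G) (N : ℕ), N₀ ≤ N →
            c * N ≤ ∑ n ∈ Finset.Ioc (0 : ℤ) N, p.1.indicator (fun _ => (1 : ℝ)) n * Return μ g B n) ∧
      (∀ (q e : ℕ) (F : Fin (q + 1) → Fin e → ℤ) (γ ρ : ℝ), 0 < γ → 0 < ρ → ∃ c : ℝ, 0 < c ∧ ∃ N₀ : ℕ,
        ∀ p ∈ Family m c₁ δ, γ ≤ p.2 → ∀ N : ℕ, N₀ ≤ N →
        (∀ (L : ℕ) (x : Fin e → ℤ) (A : Set (Fin e → ℤ)), N ≤ L → A ⊆ Cube x L → ρ * (L : ℝ) ^ e ≤ (A.ncard : ℝ) →
          c * N * (L : ℝ) ^ e ≤ ({v : (Fin e → ℤ) × ℤ | 0 < v.2 ∧ v.2 ≤ N ∧ v.2 ∈ p.1 ∧ v.1 ∈ Copies F A v.2}.ncard : ℝ)) ∧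
        (∀ A : Set (Fin e → ℤ), Dense A ρ →
          c * N ≤ ({n : ℤ | 0 < n ∧ n ≤ N ∧ n ∈ p.1 ∧ Dense (Copies F A n) c}.ncard : ℝ)))) ∧
    (∀ c₁ : ℝ, 2 / Real.log (4 / 3) < c₁ →
      ∀ (G Ω : Type) [AddCommGroup G] [MeasurableSpace Ω] [AddAction G Ω] [MeasurableConstVAdd G Ω]
        (μ : Measure Ω) [IsProbabilityMeasure μ] [VAddInvariantMeasure G Ω μ] (B : Set Ω), MeasurableSet B → 0 < μ B →
        ∀ (q : ℕ) (g : Fin (q + 1) → G),
        ((∀ n : ℕ, 1 ≤ n → ∃ k, T^[k] n = 1) ↔ ∀ c : ℝ, 0 < c → ∃ᶠ N : ℕ in atTop,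
          ∑ n ∈ Finset.Ioc (0 : ℤ) N, (Logarithmic c₁)ᶜ.indicator (fun _ => (1 : ℝ)) n * Return μ g B n ≤ c * N)) ∧
    (∀ c₁ : ℝ, 2 / Real.log (4 / 3) < c₁ →
      ∀ (q e : ℕ) (F : Fin (q + 1) → Fin e → ℤ) (ρ : ℝ), 0 < ρ → ∀ A : Set (Fin e → ℤ), Dense A ρ →
        ((∀ n : ℕ, 1 ≤ n → ∃ k, T^[k] n = 1) ↔ ∀ c : ℝ, 0 < c → ∃ᶠ N : ℕ in atTop,
          ({n : ℤ | 0 < n ∧ n ≤ N ∧ n ∉ Logarithmic c₁ ∧ Dense (Copies F A n) c}.ncard : ℝ) ≤ c * N)) := by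
  obtain ⟨δ, h0, h1, h2, h3, h4⟩ := lawE
  refine ⟨δ, h0, h1, h2, h3, fun m c₁ hm hc₁ => ⟨fun k ε hε => ?_, fun q γ ρ hγ hρ => ?_, fun q e F γ ρ hγ hρ => ?_⟩,
    fun c₁ hc₁ => ?_, fun c₁ hc₁ => ?_⟩
  · exact partA (LS_W h0 h1 hm h4 h3 hc₁ k) ε hε
  · exact partB (LS_W h0 h1 hm h4 h3 hc₁ (q + 1)) hγ hρ
  · exact partC (LS_W h0 h1 hm h4 h3 hc₁ (q + 1)) F hγ hρ
  · intro G Ω _ _ _ _ μ _ _ B hB hμ q g
    exact partD h0 h1 h2 h4 h3 hc₁ G Ω μ B hB hμ q g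
  · intro q e F ρ hρ A hA
    exact partE h0 h1 h2 h4 h3 hc₁ F hρ A hA

end Pool.Agent.Results.MP_a1568a_nt.RecurrenceOfTimes
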