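import Mathlib
import Pool.Agent.U773.SP.Mol

/-!
# Sparse integers in the orbits of the exceptional integers of Möller's maps

Let `d ≥ 2`, `m ≥ 1` be coprime, `S` a finite set of primes which does not contain all the primes
dividing `d m`, and `s ≥ 0`. For `M ≥ 1` an integer is called short if it is a sum of `s` terms
`a u` with integers `|a| ≤ M` and `S`-units `u`; for example the integers with at most `s` nonzero
digits in a base composed of the primes of `S`. All constants are independent of the admissible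
family `r_j`, `|r_j| ≤ R`.

(1) The dip theorem: for every `ε > 0` there is `C` such that a `T`-orbit which goes from a short
integer `x` to a short integer `T^j x` through more than `C (1 + log M)` elements of `D` (the
integers not divisible by `d`) has a term `|T^i x| ≤ C R exp (ε (j + log (1 + |x|)))`, `i < j`.

(2) For every `A` there is `C` such that the `T`-orbit of every exceptional integer `n ≥ C R ^ 2`
has at most `C (1 + log M)` short elements in `D` among its first `A log n` terms.

(3) Among the first `N` terms of every `T`-orbit whose first `N` terms are different (of a cycle of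
length `N`, or an unbounded orbit) at most
`C M ^ (s + 1) (1 + log R) ^ (s |S| + 1) N ^ (1 - 1 / (s |S| + 1))` are short elements of `D`.

Method. A chain of affine maps `d x' = m x - r` gives `m^o x + B = d^j y`; if the orbit stays large
then `B` is small compared to `m^o x`, and in sums of `S`-units with coefficients of small height
there is no cancellation (`Pool.Agent.TH551.HA`, from the `S`-adic subspace theorem). In a second
scale the valuation at a prime of `d m` outside `S` gives a contradiction.
-/

set_option autoImplicit false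

namespace Pool.Agent.Results.MP_fd8838_nt.SparseExceptional

open Finset Pool.Agent.U773.SP Pool.Agent.U773.SP.Mol

open scoped Classical

theorem result (d m : ℕ) (hd : 2 ≤ d) (hm : 1 ≤ m) (hc : Nat.Coprime m d) (S : Finset ℕ)
    (hS : ∃ q : ℕ, q.Prime ∧ q ∣ d * m ∧ q ∉ S) (s : ℕ) :
    (∀ ε : ℝ, 0 < ε → ∃ C : ℝ, 0 < C ∧ ∀ (r : ℤ → ℤ) (R M : ℝ) (x : ℤ) (j : ℕ),
      Admissible d m r → 1 ≤ R → (∀ j : ℤ, 0 < j → j < d → |(r j : ℝ)| ≤ R) → 1 ≤ M →
      Short S s M x → Short S s M ((T d m r)^[j] x) →
      C * (1 + Real.log M) < ((range j).filter (fun i => ¬ (d : ℤ) ∣ (T d m r)^[i] x)).card →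
        ∃ i < j, |(((T d m r)^[i] x : ℤ) : ℝ)| ≤
          C * R * Real.exp (ε * (j + Real.log (1 + |(x : ℝ)|)))) ∧
    (∀ A : ℝ, 0 < A → ∃ C : ℝ, 0 < C ∧ ∀ (r : ℤ → ℤ) (R M : ℝ) (n : ℤ) (N : ℕ),
      Admissible d m r → 1 ≤ R → (∀ j : ℤ, 0 < j → j < d → |(r j : ℝ)| ≤ R) → 1 ≤ M →
      Exceptional d m r n → C * R ^ 2 ≤ n → (N : ℝ) ≤ A * Real.log n →
        (((range N).filter (fun k => ¬ (d : ℤ) ∣ (T d m r)^[k] n ∧
          Short S s M ((T d m r)^[k] n))).card : ℝ) ≤ C * (1 + Real.log M)) ∧
    (∃ C : ℝ, 0 < C ∧ ∀ (r : ℤ → ℤ) (R M : ℝ) (x : ℤ) (N : ℕ),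
      Admissible d m r → 1 ≤ R → (∀ j : ℤ, 0 < j → j < d → |(r j : ℝ)| ≤ R) → 1 ≤ M → 1 ≤ N →
      (∀ i < N, ∀ k < N, (T d m r)^[i] x = (T d m r)^[k] x → i = k) →
        (((range N).filter (fun k => ¬ (d : ℤ) ∣ (T d m r)^[k] x ∧
          Short S s M ((T d m r)^[k] x))).card : ℝ) ≤
          C * M ^ (s + 1) * (1 + Real.log R) ^ (s * S.card + 1) *
            (N : ℝ) ^ (((s * S.card : ℕ) : ℝ) / ((s * S.card : ℕ) + 1))) := by
  obtain ⟨q, hq, hqd, hqS⟩ := hS
  refine ⟨?_, ?_, ?_⟩
  · intro ε hε
    obtain ⟨C, hC, h⟩ := gen_dip S (d * m).primeFactors s (d + m) ε hε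
    refine ⟨C, by linarith, ?_⟩
    intro r R M x j ha hR hr hM hx hy hbig
    rcases h j _ _ _ _ R M hR hM (isChain hd hm ha hR hr j x) 0 j (Nat.zero_le _) le_rfl
      hx hy with ⟨l, -, hl, h1⟩ | h1
    · exact ⟨l, hl, by simpa using h1⟩
    · exfalso
      have h2 := bal_few hd hm hc hq hqd hqS x h1
      rw [← Finset.range_eq_Ico] at h2
      linarith
  · intro A hA
    obtain ⟨C, hC, h⟩ := gen_window S (d * m).primeFactors s (d + m) (1 / (8 * (A + 1)))
      (by positivity)
    refine ⟨16 * C ^ 2, by positivity, ?_⟩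
    intro r R M n N ha hR hr hM hn hnR hN
    have hlM : 0 ≤ Real.log M := Real.log_nonneg hM
    have hR2 : 1 ≤ R ^ 2 := one_le_pow₀ hR
    have hC2 : 1 ≤ C ^ 2 := one_le_pow₀ hC
    have hn1 : (1 : ℝ) ≤ n := by
      refine le_trans ?_ hnR
      nlinarith
    have hln : 0 ≤ Real.log n := Real.log_nonneg hn1
    -- the threshold
    have hthr : C * R * Real.exp (1 / (8 * (A + 1)) * (N + Real.log (1 + |((n : ℤ) : ℝ)|) +
        Real.log (1 + R))) < n := by
      have e1 : Real.log (1 + |((n : ℤ) : ℝ)|) ≤ 1 + Real.log n := by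
        rw [abs_of_nonneg (by linarith)]
        exact log_add_le (by linarith) hn1 le_rfl
      have e2 : Real.log (1 + R) ≤ 1 + Real.log R := log_add_le (by linarith) hR le_rfl
      have hlR : 0 ≤ Real.log R := Real.log_nonneg hR
      have e3 : Real.log (16 * C ^ 2 * R ^ 2) ≤ Real.log n :=
        Real.log_le_log (by positivity) hnR
      have e4 : Real.log (16 * C ^ 2 * R ^ 2) = Real.log 16 + 2 * Real.log C +
          2 * Real.log R := by
        rw [Real.log_mul (by positivity) (by positivity), Real.log_mul (by positivity)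
          (by positivity), Real.log_pow, Real.log_pow]
        push_cast
        ring
      have e5 : (2 : ℝ) < Real.log 16 := by
        have : (16 : ℝ) = 2 ^ 4 := by norm_num
        rw [this, Real.log_pow]
        have := Real.log_two_gt_d9
        push_cast
        linarith
      have hlC : 0 ≤ Real.log C := Real.log_nonneg hC
      have e6 : 1 / (8 * (A + 1)) * (N + Real.log (1 + |((n : ℤ) : ℝ)|) + Real.log (1 + R)) ≤
          1 / 8 * (Real.log n + 2 + Real.log R) := by
        rw [div_mul_eq_mul_div, one_mul, div_le_iff₀ (by positivity)]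
        have e7 : (N : ℝ) + Real.log (1 + |((n : ℤ) : ℝ)|) + Real.log (1 + R) ≤
            A * Real.log n + (1 + Real.log n) + (1 + Real.log R) := by linarith
        refine e7.trans ?_
        nlinarith [mul_nonneg hA.le hln, mul_nonneg hA.le hlR]
      have e8 : C * R * Real.exp (1 / (8 * (A + 1)) * (N + Real.log (1 + |((n : ℤ) : ℝ)|) +
          Real.log (1 + R))) ≤
          Real.exp (Real.log C + Real.log R + 1 / 8 * (Real.log n + 2 + Real.log R)) := by
        rw [Real.exp_add, Real.exp_add, Real.exp_log (by linarith), Real.exp_log (by linarith)]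
        gcongr
      refine lt_of_le_of_lt e8 ?_
      rw [← Real.lt_log_iff_exp_lt (by linarith)]
      linarith
    have h1 := card_le_of_ext (fun i => (T d m r)^[i] n) (fun y => ¬ (d : ℤ) ∣ y)
      ((range N).filter (fun k => ¬ (d : ℤ) ∣ (T d m r)^[k] n ∧ Short S s M ((T d m r)^[k] n)))
      (C * (1 + Real.log M)) (by positivity) (fun i hi => (mem_filter.1 hi).2.1) (by
        intro i hi k hk hik _
        rw [mem_filter, mem_range] at hi hk
        have h2 := h N _ _ _ _ R M hR hM (isChain hd hm ha hR hr N n) i k hik.le hk.1.le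
          hi.2.2 hk.2.2 (fun l _ _ => by
            refine lt_of_lt_of_le hthr ?_
            have h3 : ((n : ℤ) : ℝ) ≤ (((T d m r)^[l] n : ℤ) : ℝ) := by
              exact_mod_cast hn.2.2 l
            exact h3.trans (le_abs_self _))
        exact (card_inst' _ _ _ _).trans_le (bal_few hd hm hc hq hqd hqS n h2))
    refine h1.trans ?_
    have : C + 1 ≤ 16 * C ^ 2 := by nlinarith
    nlinarith
  · obtain ⟨C, hC, h⟩ := gen_count S (d * m).primeFactors s (d + m)
    refine ⟨C, by linarith, ?_⟩
    intro r R M x N ha hR hr hM hN hinj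
    have h1 := h N _ _ _ _ R M (fun y => ¬ (d : ℤ) ∣ y) hR hM hN
      (isChain hd hm ha hR hr N x) hinj (fun i k T₀ _ _ hb =>
        (card_inst' _ _ _ _).trans_le (bal_few hd hm hc hq hqd hqS x hb))
    exact (card_inst' _ _ _ _).trans_le h1

end Pool.Agent.Results.MP_fd8838_nt.SparseExceptional
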